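import Pool.Agent.H23.CR.MED
import Pool.Agent.H23.CR.RATE
import Pool.Agent.H23.CR.All

/-!
# The constants `c(r)` of Erdős are sharp thresholds

For `r ≥ 4` let `c(r)` be the smallest edge density at which a random graph with `c n` edges has
chromatic number exactly `r` with probability bounded below. We prove that `c(r)` is the sharp
threshold for the property `χ ≥ r`, that `c(r + 1) ≥ c(r) + 1/4000`, and that between `c(r)` and
`c(r + 1)` the chromatic number is `r` with probability tending to one (with a polynomial rate).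
The number `c(r)` is the limit of `m / n`, where `m = med r n` is the largest number of edges with
`P(χ < r) ≥ 1/2`, and it is an explicit supremum of finite quantities.

Idea: the existence of the `k`-colourability thresholds `t(k)`, `k ≥ 3`, is a theorem of the
library (`H320R2.CT`). For the gap: let `I` be the greedy stable set inside `w = β n` vertices of
`m` independent uniform edges with `m = (1 + β/8) t(k) n`. The edges avoiding `I` are independent
uniform edges of the rest, and their expected number is smaller than `(1 - β/2) (t(k) - ε) (n - w)`;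
so by Markov's inequality with probability bounded below the rest is `k`-colourable, and the whole
graph is `(k + 1)`-colourable.
-/

set_option autoImplicit false

open Filter

namespace Pool.Agent.Results.MP_f6b604_pr.SharpThresholds

/-- The probability that a uniformly random graph with vertex set `Fin n` and exactly `M` edges is
`k`-colourable. -/
noncomputable def colProb (k n M : ℕ) : ℝ :=
  (Nat.card {G : SimpleGraph (Fin n) // G.edgeSet.ncard = M ∧ G.Colorable k} : ℝ) /
    (Nat.card {G : SimpleGraph (Fin n) // G.edgeSet.ncard = M} : ℝ)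

/-- The probability that a uniformly random graph with vertex set `Fin n` and exactly `M` edges has
chromatic number `r`. -/
noncomputable def chiProb (r n M : ℕ) : ℝ :=
  (Nat.card {G : SimpleGraph (Fin n) // G.edgeSet.ncard = M ∧ G.chromaticNumber = r} : ℝ) /
    (Nat.card {G : SimpleGraph (Fin n) // G.edgeSet.ncard = M} : ℝ)

/-- The constant `c(r)` of the problem: the infimum of the `c > 0` with
`liminf P(χ(G(n, ⌊c n⌋)) = r) > 0`. -/
noncomputable def c (r : ℕ) : ℝ :=
  sInf {c : ℝ | 0 < c ∧ 0 < liminf (fun n : ℕ => chiProb r n ⌊c * (n : ℝ)⌋₊) atTop}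

/-- The largest number `M` of edges such that a random graph with `n` vertices and `M` edges is
`(r-1)`-colourable with probability at least `1/2`. -/
noncomputable def med (r n : ℕ) : ℕ := sSup {M : ℕ | 1 / 2 ≤ colProb (r - 1) n M}

/-- **The constants `c(r)`, `r ≥ 4`, are sharp thresholds.** -/
theorem result (r : ℕ) (hr : 4 ≤ r) :
    1 / 16 ≤ c r ∧ c r + 1 / 4000 ≤ c (r + 1) ∧
    -- `c r` is the sharp threshold for the property `χ ≥ r`
    (∀ x, x < c r → Tendsto (fun n : ℕ => colProb (r - 1) n ⌊x * (n : ℝ)⌋₊) atTop (nhds 1)) ∧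
    (∀ x, c r < x → Tendsto (fun n : ℕ => colProb (r - 1) n ⌊x * (n : ℝ)⌋₊) atTop (nhds 0)) ∧
    -- the chromatic number is `r` with high probability exactly between `c r` and `c (r + 1)`
    (∀ x, x < c r → Tendsto (fun n : ℕ => chiProb r n ⌊x * (n : ℝ)⌋₊) atTop (nhds 0)) ∧
    (∀ x, c r < x → x < c (r + 1) →
      Tendsto (fun n : ℕ => chiProb r n ⌊x * (n : ℝ)⌋₊) atTop (nhds 1)) ∧
    (∀ x, c (r + 1) < x → Tendsto (fun n : ℕ => chiProb r n ⌊x * (n : ℝ)⌋₊) atTop (nhds 0)) ∧
    -- with rates
    (∀ ε : ℝ, 0 < ε → ∃ C : ℝ, 0 < C ∧ ∀ n M : ℕ, 1 ≤ n →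
      c r * n + C * (n : ℝ) ^ ((17 : ℝ) / 18) ≤ M → (M : ℝ) ≤ (c (r + 1) - ε) * n →
      1 - C * (n : ℝ) ^ (-(1 / 36) : ℝ) ≤ chiProb r n M) ∧
    -- `c r` is the limit of the medians and an explicit supremum
    Tendsto (fun n : ℕ => (med r n : ℝ) / n) atTop (nhds (c r)) ∧
    (∃ C : ℕ, 0 < C ∧ IsLUB {x : ℝ | ∃ n M : ℕ, 1 ≤ n ∧ 1 / 2 ≤ colProb (r - 1) n M ∧
      x = (M : ℝ) / n - (C : ℝ) * (n : ℝ) ^ (-(1 / 18) : ℝ)} (c r)) := by
  obtain ⟨t, ht⟩ := Pool.Agent.H23.CR.p_TH
  obtain ⟨h3, hinc⟩ := Pool.Agent.H23.CR.inc_all t (fun k hk => ⟨(ht k hk).1, (ht k hk).2.1⟩)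
  have hfin := Pool.Agent.H23.CR.p_FIN t (by linarith)
    (fun k hk => by have := hinc k hk; linarith)
    (fun k hk => ⟨(ht k hk).2.2.1, (ht k hk).2.2.2.1⟩)
  have hc : ∀ r, 4 ≤ r → c r = t (r - 1) := fun r hr => (hfin r hr).1
  have hr1 : r - 1 + 1 = r := by omega
  have e1 : c r = t (r - 1) := hc r hr
  have e2 : c (r + 1) = t r := hc (r + 1) (by omega)
  have hge : ∀ k, 3 ≤ k → 1 / 16 ≤ t k := by
    intro k hk
    induction k, hk using Nat.le_induction with
    | base => exact h3
    | succ k hk ih => have := hinc k hk; linarith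
  have hstep : t (r - 1) + 1 / 4000 ≤ t r := by
    have := hinc (r - 1) (by omega)
    rwa [hr1] at this
  obtain ⟨-, -, g1, g0, gL⟩ := ht (r - 1) (by omega)
  obtain ⟨-, -, f1, f0, fL⟩ := ht r (by omega)
  obtain ⟨-, -, b2, b3⟩ := hfin r hr
  rw [e1, e2]
  have hpos := hge (r - 1) (by omega)
  refine ⟨hpos, hstep, g1, g0, ?_, b2, b3,
    Pool.Agent.H23.CR.rate_chi r hr _ _ gL fL,
    Pool.Agent.H23.CR.med_lim r _ (by linarith) g1 g0, ?_⟩
  · intro x hx
    have := (f1 x (by linarith)).sub (g1 x hx)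
    have e3 : (fun n : ℕ => chiProb r n ⌊x * (n : ℝ)⌋₊) =
      fun n : ℕ => Pool.Agent.H23.CR.cp r n ⌊x * (n : ℝ)⌋₊ -
        Pool.Agent.H23.CR.cp (r - 1) n ⌊x * (n : ℝ)⌋₊ := by
      funext n
      exact Pool.Agent.H23.CR.chi_eq r n _ (by omega)
    rw [e3]
    simpa using this
  · obtain ⟨C, hC, -, -, -, hL⟩ := gL
    exact ⟨C, hC, hL⟩

end Pool.Agent.Results.MP_f6b604_pr.SharpThresholds
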